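import Pool.Agent.MWFE.StmtsC

/-! # RE0 (squad MWFE, MP_23468a_al): the empty word -/

set_option autoImplicit false

namespace Pool.Agent.MWFE.H69

open Pool.Agent.Helper14_MV Pool.Agent.Helper2_MV Pool.Agent.MVD Pool.Agent.MWFE

theorem rep_flat (g : ℕ → List ℕ) (a z k : ℕ) (h : g a = [z]) :
    (List.replicate k a).flatMap g = List.replicate k z := by
  induction k with
  | zero => rfl
  | succ k ih => rw [List.replicate_succ, List.flatMap_cons, ih, h, List.replicate_succ]; rfl

theorem tk_flat (g : ℕ → List ℕ) (n a z v w l : ℕ) (h : g a = [z]) (hv : g v = [w]) :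
    (tk n a v l).flatMap g = tk n z w l := by
  unfold tk
  rw [List.flatMap_append, List.flatMap_cons, rep_flat g a z _ h, rep_flat g a z _ h, hv]
  rfl

theorem re0 : Re0Stmt := by
  intro n β H p q r z x y _ _ _ _
  let g : ℕ → List ℕ := fun a =>
    if a = 0 then [x] else if a = 3 then [y] else if a = 4 then [z] else if a = 2 then q else []
  have key : ∀ a b la lb va vb : ℕ, g a = [va] → g b = [vb] → lam a = la → lam b = lb →
      (ExZ n 1 [0, 1, 2] [1] [a, b]).flatMap g =
        tk n z va la ++ (tk n z vb lb ++ (q ++ [x, y])) := by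
    intro a b la lb va vb ha hb hla hlb
    have e : ExZ n 1 [0, 1, 2] [1] [a, b] =
        (tk n 4 a (lam a) ++ (tk n 4 b (lam b) ++ [])) ++ [2] ++ ([0, 1, 3] ++ [5] ++
          ([1] ++ [8] ++ [])) := rfl
    rw [e]
    simp only [List.flatMap_append, hla, hlb]
    rw [tk_flat g n 4 z a va la rfl ha, tk_flat g n 4 z b vb lb rfl hb]
    simp [g]
  have h1 := RR.sub g H
  rw [key 0 3 0 1 x y rfl rfl rfl rfl, key 3 0 1 0 y x rfl rfl rfl rfl] at h1
  have h2 := RR.append (RR.refl p) (RR.append h1 (RR.refl r))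
  simpa using h2

end Pool.Agent.MWFE.H69
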